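import Pool.Agent.U624.KT.Stm

set_option autoImplicit false

open scoped Quaternion
open Quaternion (normSq)

namespace Pool.Agent.U565.KT

open Pool.Agent.U624.KT

theorem TP.ne_zero {a : K} (h : TP a) : a ≠ 0 := by
  rintro rfl
  have he : (√2 : ℝ) ^ 2 = 2 := Real.sq_sqrt (by norm_num)
  have hg : ((1 + √5) / 2 : ℝ) ^ 2 = (1 + √5) / 2 + 1 := by
    have h5 : (√5 : ℝ) ^ 2 = 5 := Real.sq_sqrt (by norm_num)
    linear_combination (1 / 4) * h5
  have := h (emb _ _ he hg)
  simp at this

theorem t_CONJ (h1 : S_LT) (h2 : S_ORD) (h3 : S_DES) : S_CONJ := by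
  intro I a v ha hI hN hv hnv hIv
  obtain ⟨x, hx, ε, hε, ε', hε', hee, hnx⟩ := h1 I a ha hI hN
  obtain ⟨o1, o2, o3, o4, o5, o6, o7, o8⟩ := h2
  have ha0 : a ≠ 0 := TP.ne_zero ha
  have hε0 : ε ≠ 0 := fun h => by rw [h, zero_mul] at hee; exact zero_ne_one hee
  have hs : s * s = 2 := by rw [← sq]; exact s_sq
  have hs2 : (s + 1) * (s - 1) = 1 := by linear_combination hs
  have h2s : (2 - s : K) = s * (s - 1) := by linear_combination -hs
  have hs0 : s ≠ 0 := by
    intro h; rw [h] at hs; norm_num at hs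
  have hs1 : s - 1 ≠ 0 := fun h => by rw [h, mul_zero] at hs2; exact zero_ne_one hs2
  have hn0 : normSq x ≠ 0 := by
    rcases hnx with h | h <;> rw [h]
    · exact mul_ne_zero (pow_ne_zero _ hε0) ha0
    · rw [h2s]
      exact mul_ne_zero (mul_ne_zero (mul_ne_zero hs0 hs1) (pow_ne_zero _ hε0)) ha0
  set n := normSq x with hndef
  -- the element `q = x v x^* / a` of the order
  set q : ℍ[K] := (a⁻¹ : K) • (x * v * star x) with hq
  have hOSq : OS q := by
    apply o8
    intro t ht
    have hz : t * (x * v) ∈ I := hI t ht _ (hIv x hx)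
    obtain ⟨r1, hr1, e1⟩ := hN.1 _ (I.add_mem hz hx)
    obtain ⟨r2, hr2, e2⟩ := hN.1 _ hz
    obtain ⟨r3, hr3, e3⟩ := hN.1 _ hx
    have key : 2 * (t * q).re = r1 - r2 - r3 := by
      have hk : 2 * (t * (x * v) * star x).re =
          normSq (t * (x * v) + x) - normSq (t * (x * v)) - normSq x := by
        generalize t * (x * v) = y
        simp only [Quaternion.normSq_def', Quaternion.re_mul, Quaternion.re_add, Quaternion.imI_add,
          Quaternion.imJ_add, Quaternion.imK_add, Quaternion.re_star, Quaternion.imI_star,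
          Quaternion.imJ_star, Quaternion.imK_star]
        ring
      rw [e1, e2, e3] at hk
      have e4 : t * q = (a⁻¹ : K) • (t * (x * v) * star x) := by
        rw [hq, mul_smul_comm, mul_assoc t (x * v)]
      rw [e4, Quaternion.re_smul, smul_eq_mul]
      field_simp
      linear_combination hk
    rw [key]
    exact R.sub_mem (R.sub_mem hr1 hr2) hr3
  set v' : ℍ[K] := (n⁻¹ : K) • (x * v * star x) with hv'
  have hstar : star x * x = (n : ℍ[K]) := Quaternion.star_mul_self x
  have hvx : v' * x = x * v := by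
    rw [hv', smul_mul_assoc, mul_assoc, hstar]
    have : x * v * (n : ℍ[K]) = n • (x * v) := by
      rw [← Quaternion.coe_commutes, Quaternion.coe_mul_eq_smul]
    rw [this, smul_smul, inv_mul_cancel₀ hn0, one_smul]
  have hre0 : (x * v * star x).re = 0 := by
    have : (x * v * star x).re = normSq x * v.re := by
      simp only [Quaternion.normSq_def', Quaternion.re_mul, Quaternion.imI_mul,
          Quaternion.imJ_mul, Quaternion.imK_mul, Quaternion.re_star, Quaternion.imI_star,
          Quaternion.imJ_star, Quaternion.imK_star]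
      ring
    rw [this, hv, mul_zero]
  have hv're : v'.re = 0 := by
    rw [hv', Quaternion.re_smul, hre0, smul_zero]
  have hnv' : normSq v' = normSq v := by
    have h := congrArg normSq hvx
    rw [map_mul, map_mul, mul_comm (normSq x)] at h
    exact mul_right_cancel₀ hn0 h
  -- `s v'` is in the order
  have hcase : OS (s • v') := by
    rcases hnx with h | h
    · have : s • v' = ((s * ε' ^ 2 : K) : ℍ[K]) * q := by
        rw [Quaternion.coe_mul_eq_smul, hv', hq, smul_smul, smul_smul]
        congr 1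
        rw [h]
        field_simp
        linear_combination (-(ε * ε') - 1) * hee
      rw [this]
      exact o5 _ _ (o1 _ (R.mul_mem s_mem (R.pow_mem hε' 2))) hOSq
    · have : s • v' = (((s + 1) * ε' ^ 2 : K) : ℍ[K]) * q := by
        rw [Quaternion.coe_mul_eq_smul, hv', hq, smul_smul, smul_smul]
        congr 1
        rw [h, h2s]
        have e5 : (s + 1) = (s - 1)⁻¹ := eq_inv_of_mul_eq_one_left hs2
        rw [e5]
        field_simp
        linear_combination (-(ε * ε') - 1) * hee
      rw [this]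
      exact o5 _ _ (o1 _ (R.mul_mem (R.add_mem s_mem R.one_mem) (R.pow_mem hε' 2))) hOSq
  obtain ⟨-, -, -, -, c1, c2, c3, -⟩ := hcase
  have hR : ∀ y : K, s * (0 - s * y) ∈ R → 2 * y ∈ R := by
    intro y hy
    have : 2 * y = -(s * (0 - s * y)) := by linear_combination -y * hs
    rw [this]
    exact R.neg_mem hy
  rw [Quaternion.re_smul, hv're, Quaternion.imI_smul, smul_eq_mul, smul_eq_mul, mul_zero] at c1
  rw [Quaternion.re_smul, hv're, Quaternion.imJ_smul, smul_eq_mul, smul_eq_mul, mul_zero] at c2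
  rw [Quaternion.re_smul, hv're, Quaternion.imK_smul, smul_eq_mul, smul_eq_mul, mul_zero] at c3
  obtain ⟨g, w, hg, hgR, hw, hwre, hgv⟩ := h3 v' hv're (hR _ c1) (hR _ c2) (hR _ c3) (hnv' ▸ hnv)
  refine ⟨x, hx, g, w, ε, hε, ε', hε', hee, hnx, hg, hgR, hw, hwre, ?_⟩
  rw [mul_assoc g x v, ← hvx, ← mul_assoc, hgv, mul_assoc]

end Pool.Agent.U565.KT
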